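import Pool.Agent.H48.Split.Unif
import Pool.Agent.H48.Split.Templ

/-!
# MP_3581cd_co : disjoint edge pairs with a common union

For every `r` there are a real number `g` and an integer `kr` such that for every `k ≥ kr` and all
large `n`, every `k`-uniform hypergraph on `n` vertices with more than `g * C(n-1,k-1)` edges
contains an `r`-fold split.

The proof: for one fixed uniformity `k(r)` and a `k(r)`-partite family of positive codegree-one
density, take the uniform distribution, and for every set `K` of parts a copy of the random edge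
which agrees with it on `K`, the copies being independent given the edge.  The entropy deficit of
the edge on a set `E` of parts, given what the copies and the edge show outside `E`, is a
submodular function of the family of copies.  Comparing a long chain of scales gives two scales and
a family of copies at which this deficit does not increase, so that the conditional law on `E` has
no deficit on most of `E`, and one can iterate inside `E`; two copies of the family differ
everywhere outside `E`.
-/

set_option autoImplicit false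

namespace Pool.Agent.Results.MP_3581cd_co.AllFoldSplits

open Finset Pool.Agent.H48.Sp Pool.Agent.H48.Tp

/-- `H` contains an `r`-fold split: `2r` pairwise distinct edges `A i, B i` with `A i`, `B i`
disjoint and all unions `A i ∪ B i` equal. -/
def HasSplit (r : ℕ) {n : ℕ} (H : Finset (Finset (Fin n))) : Prop :=
  ∃ A B : Fin r → Finset (Fin n),
    (∀ i, A i ∈ H ∧ B i ∈ H ∧ Disjoint (A i) (B i)) ∧
    (∀ i j, A i ∪ B i = A j ∪ B j) ∧
    Function.Injective (Sum.elim A B)

theorem split_of_cube {r k K M n : ℕ} (π : Fin K → Fin k) (hπ : Function.Surjective π)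
    (ι : Fin K × Fin M ↪ Fin n) (σ : Equiv.Perm (Fin n)) (H : Finset (Finset (Fin n)))
    (hc : CubeIn (r + 1) fun f : Fin k → Fin M => (U π ι f).map σ.toEmbedding ∈ H) :
    HasSplit r H := by
  obtain ⟨x, y, κ, hκ, hxy, hw⟩ := hc
  let w : (Fin (r + 1) → Bool) → Fin k → Fin M := fun ε i => if ε (κ i) = true then x i else y i
  let P : (Fin (r + 1) → Bool) → Finset (Fin n) := fun ε => (U π ι (w ε)).map σ.toEmbedding
  have hPinj : Function.Injective P := by
    intro ε ε' h
    have h1 : w ε = w ε' := U_inj π ι hπ (Finset.map_injective _ h)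
    funext j
    obtain ⟨i, rfl⟩ := hκ j
    have h2 := congrFun h1 i
    simp only [w] at h2
    by_cases e1 : ε (κ i) = true
    · by_cases e2 : ε' (κ i) = true
      · rw [e1, e2]
      · rw [if_pos e1, if_neg e2] at h2; exact absurd h2 (hxy i)
    · by_cases e2 : ε' (κ i) = true
      · rw [if_neg e1, if_pos e2] at h2; exact absurd h2.symm (hxy i)
      · simp only [Bool.not_eq_true] at e1 e2
        rw [e1, e2]
  let E1 : Fin r → Fin (r + 1) → Bool := fun j c => decide (c = 0 ∨ c = j.succ)
  let E2 : Fin r → Fin (r + 1) → Bool := fun j c => !(E1 j c)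
  have hE1inj : ∀ j j', E1 j = E1 j' → j = j' := by
    intro j j' h
    have h1 := congrFun h j.succ
    simp only [E1, Fin.succ_ne_zero, false_or, decide_true] at h1
    have h2 := of_decide_eq_true h1.symm
    exact Fin.succ_injective _ h2
  have hE12 : ∀ j j', E1 j ≠ E2 j' := by
    intro j j' h
    have h1 := congrFun h 0
    simp [E1, E2] at h1
  have hwt : ∀ j i, E1 j (κ i) = true → w (E1 j) i = x i ∧ w (E2 j) i = y i := by
    intro j i h
    have h2 : ¬ (E2 j (κ i) = true) := by simp only [E2, h]; simp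
    exact ⟨if_pos h, if_neg h2⟩
  have hwf : ∀ j i, ¬ (E1 j (κ i) = true) → w (E1 j) i = y i ∧ w (E2 j) i = x i := by
    intro j i h
    have h2 : E2 j (κ i) = true := by
      simp only [Bool.not_eq_true] at h
      simp only [E2, h]; simp
    exact ⟨if_neg h, if_pos h2⟩
  refine ⟨fun j => P (E1 j), fun j => P (E2 j), ?_, ?_, ?_⟩
  · intro j
    refine ⟨hw _, hw _, ?_⟩
    simp only [P]
    rw [Finset.disjoint_map]
    refine U_disj π ι _ _ fun i => ?_
    by_cases e1 : E1 j (κ i) = true
    · rw [(hwt j i e1).1, (hwt j i e1).2]; exact hxy i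
    · rw [(hwf j i e1).1, (hwf j i e1).2]; exact (hxy i).symm
  · intro j j'
    simp only [P]
    rw [← Finset.map_union, ← Finset.map_union]
    congr 1
    refine U_un π ι _ _ _ _ fun i => ?_
    by_cases e1 : E1 j (κ i) = true
    · by_cases e2 : E1 j' (κ i) = true
      · rw [(hwt j i e1).1, (hwt j i e1).2, (hwt j' i e2).1, (hwt j' i e2).2]; simp
      · rw [(hwt j i e1).1, (hwt j i e1).2, (hwf j' i e2).1, (hwf j' i e2).2]; simp
    · by_cases e2 : E1 j' (κ i) = true
      · rw [(hwf j i e1).1, (hwf j i e1).2, (hwt j' i e2).1, (hwt j' i e2).2]; simp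
      · rw [(hwf j i e1).1, (hwf j i e1).2, (hwf j' i e2).1, (hwf j' i e2).2]; simp
  · rintro (j | j) (j' | j') h
    · rw [hE1inj j j' (hPinj h)]
    · exact absurd (hPinj h) (hE12 j j')
    · exact absurd (hPinj h).symm (hE12 j' j)
    · have h1 : E2 j = E2 j' := hPinj h
      have h2 : E1 j = E1 j' := by
        funext c
        have := congrFun h1 c
        simp only [E2] at this
        exact Bool.not_inj this
      rw [hE1inj j j' h2]

theorem result : ∀ r : ℕ, ∃ (g : ℝ) (kr : ℕ), ∀ k ≥ kr, ∃ nk : ℕ, ∀ n ≥ nk,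
    ∀ H : Finset (Finset (Fin n)), (∀ A ∈ H, A.card = k) →
      g * ((n - 1).choose (k - 1) : ℝ) < (H.card : ℝ) → HasSplit r H := by
  intro r
  obtain ⟨k, hk, n0, hcube⟩ := cube (r + 1) (by omega)
  refine ⟨40 * k, k, fun K hkK => ?_⟩
  refine ⟨K * (n0 + 1), ?_⟩
  intro n hn H hH hlarge
  by_contra hno
  have hK : 1 ≤ K := le_trans hk hkK
  obtain ⟨M, hMdef⟩ : ∃ M, M = n / K := ⟨_, rfl⟩
  have hM1 : n0 + 1 ≤ M := by
    rw [hMdef, Nat.le_div_iff_mul_le (by omega)]
    rw [Nat.mul_comm]; exact hn
  have hKM : K * M ≤ n := by rw [hMdef]; exact Nat.mul_div_le n K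
  have hKM2 : n ≤ 2 * (K * M) := by
    have h1 : n < K * (n / K + 1) := Nat.lt_mul_div_succ n (by omega)
    rw [← hMdef] at h1
    nlinarith
  let π : Fin K → Fin k := fun x => ⟨min x.1 (k - 1), by
    have := Nat.min_le_right x.1 (k - 1); omega⟩
  have hπ : Function.Surjective π := by
    intro j
    refine ⟨⟨j.1, lt_of_lt_of_le j.2 hkK⟩, ?_⟩
    apply Fin.ext
    change min j.1 (k - 1) = j.1
    have := j.2
    omega
  let ι : Fin K × Fin M ↪ Fin n :=
    (finProdFinEquiv.toEmbedding).trans (Fin.castLEEmb hKM)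
  have hX : ∀ σ : Equiv.Perm (Fin n), (((Finset.univ : Finset (Fin k → Fin M)).filter
      (fun f => (U π ι f).map σ.toEmbedding ∈ H)).card : ℝ)
      ≤ 20 * (k:ℝ) * (M:ℝ) ^ (k - 1) := by
    intro σ
    by_contra hlt
    rw [not_le] at hlt
    apply hno
    refine split_of_cube π hπ ι σ H ?_
    have h1 := hcube M (by omega) ((Finset.univ : Finset (Fin k → Fin M)).filter
      (fun f => (U π ι f).map σ.toEmbedding ∈ H)) hlt.le
    simpa only [Finset.mem_filter, Finset.mem_univ, true_and] using h1
  have hav := averaging π ι H hH _ hX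
  have hid : K * n.choose K = n * (n - 1).choose (K - 1) := by
    have hn1 : 1 ≤ n := by nlinarith
    obtain ⟨n', rfl⟩ : ∃ n', n = n' + 1 := ⟨n - 1, by omega⟩
    obtain ⟨K', rfl⟩ : ∃ K', K = K' + 1 := ⟨K - 1, by omega⟩
    have := Nat.add_one_mul_choose_eq n' K'
    simp only [Nat.add_sub_cancel]
    rw [this]; ring
  have hidR : (K : ℝ) * (n.choose K : ℝ) = (n : ℝ) * ((n - 1).choose (K - 1) : ℝ) := by
    exact_mod_cast hid
  have hnR : (n : ℝ) ≤ 2 * (K * M) := by exact_mod_cast hKM2
  have hKpos : (0 : ℝ) < K := by exact_mod_cast hK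
  have hkpos : (0 : ℝ) < k := by exact_mod_cast hk
  have hMpos : (0 : ℝ) < M := by
    have : 0 < M := by omega
    exact_mod_cast this
  have hpow : (M : ℝ) ^ k = (M : ℝ) ^ (k - 1) * M := by
    rw [← pow_succ]; congr 1; omega
  set D : ℝ := ((n - 1).choose (K - 1) : ℝ) with hD
  have hD0 : 0 ≤ D := Nat.cast_nonneg _
  have hP : (0 : ℝ) < (M : ℝ) ^ (k - 1) := pow_pos hMpos _
  -- `C(n,K) ≤ 2 M D`
  have h1 : (n.choose K : ℝ) ≤ 2 * M * D := by
    have h2 : (K : ℝ) * (n.choose K : ℝ) ≤ K * (2 * M * D) := by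
      rw [hidR]
      calc (n:ℝ) * D ≤ 2 * (K * M) * D := mul_le_mul_of_nonneg_right hnR hD0
        _ = K * (2 * M * D) := by ring
    exact le_of_mul_le_mul_left h2 hKpos
  have h2 : (M : ℝ) ^ (k - 1) * M * (H.card : ℝ) ≤ (M : ℝ) ^ (k - 1) * M * (40 * k * D) := by
    rw [← hpow]
    calc (M : ℝ) ^ k * (H.card : ℝ) ≤ 20 * (k:ℝ) * (M:ℝ) ^ (k - 1) * (n.choose K : ℝ) := hav
      _ ≤ 20 * (k:ℝ) * (M:ℝ) ^ (k - 1) * (2 * M * D) :=
        mul_le_mul_of_nonneg_left h1 (by positivity)
      _ = (M : ℝ) ^ k * (40 * k * D) := by rw [hpow]; ring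
  have h3 : (H.card : ℝ) ≤ 40 * k * D := le_of_mul_le_mul_left h2 (by positivity)
  linarith

end Pool.Agent.Results.MP_3581cd_co.AllFoldSplits
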